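import Mathlib

set_option autoImplicit false

open MeasureTheory Filter Topology

namespace Pool.Agent.Results.MP_44eb1e_pr.SupportIsDisc

/-- `A = (σ_ij)` is a nonnegative irreducible matrix: the digraph with an edge `i → j` whenever
`σ_ij > 0` is strongly connected. -/
def Irreducible {n : ℕ} (σ : Matrix (Fin n) (Fin n) ℝ) : Prop :=
  (∀ i j, 0 ≤ σ i j) ∧ ∀ i j, Relation.ReflTransGen (fun a b => 0 < σ a b) i j

/-- `V = (1/n) (σ_ij ^ 2)`. -/
noncomputable def V {n : ℕ} (σ : Matrix (Fin n) (Fin n) ℝ) : Matrix (Fin n) (Fin n) ℝ :=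
  Matrix.of fun i j => σ i j ^ 2 / n

/-- The spectral radius of a real matrix. -/
noncomputable def rho {n : ℕ} (M : Matrix (Fin n) (Fin n) ℝ) : ℝ :=
  (spectralRadius ℂ (M.map Complex.ofReal)).toReal

/-- The Master Equations for `(q, q')` in `[0, ∞)^n`, with parameter `s`. -/
structure Master {n : ℕ} (M : Matrix (Fin n) (Fin n) ℝ) (s : ℝ) (q q' : Fin n → ℝ) : Prop where
  nonneg : ∀ i, 0 ≤ q i
  nonneg' : ∀ i, 0 ≤ q' i
  eq : ∀ i, q i = M.transpose.mulVec q i / (s ^ 2 + M.mulVec q' i * M.transpose.mulVec q i)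
  eq' : ∀ i, q' i = M.mulVec q' i / (s ^ 2 + M.mulVec q' i * M.transpose.mulVec q i)
  sum : ∑ i, q i = ∑ i, q' i

/-- `(q(s), q'(s))` is the selected solution of the Master Equations: `q(s) = q'(s) = 0` for
`s ≥ √ρ(V)`, and `(q(s), q'(s))` is a nonzero solution for `0 < s < √ρ(V)`. -/
structure Selected {n : ℕ} (σ : Matrix (Fin n) (Fin n) ℝ) (q q' : ℝ → Fin n → ℝ) : Prop where
  master : ∀ s : ℝ, 0 < s → Master (V σ) s (q s) (q' s)
  zero : ∀ s : ℝ, 0 < s → √(rho (V σ)) ≤ s → q s = 0 ∧ q' s = 0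
  nonzero : ∀ s : ℝ, 0 < s → s < √(rho (V σ)) → ¬ (q s = 0 ∧ q' s = 0)

/-- `F_A(s) = 1 - (1/n) ⟨q(s), V q'(s)⟩`. -/
noncomputable def F {n : ℕ} (σ : Matrix (Fin n) (Fin n) ℝ) (q q' : ℝ → Fin n → ℝ) (s : ℝ) : ℝ :=
  1 - 1 / n * dotProduct (q s) ((V σ).mulVec (q' s))

/-- `μ` is the deterministic equivalent `μ_A`: the radially symmetric probability measure on `ℂ`
with `μ {|z| ≤ s} = F_A(s)` for all `s > 0`. -/
structure IsDetEquiv {n : ℕ} (σ : Matrix (Fin n) (Fin n) ℝ) (μ : Measure ℂ) : Prop where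
  prob : IsProbabilityMeasure μ
  radial : ∀ θ : ℝ, μ.map (fun z => Complex.exp (θ * Complex.I) * z) = μ
  law : ∃ q q' : ℝ → Fin n → ℝ, Selected σ q q' ∧
    ∀ s : ℝ, 0 < s → (μ {z | ‖z‖ ≤ s}).toReal = F σ q q' s

theorem log_bound (x c : ℝ) (hx : 0 < x) (hc : 0 < c) : Real.log x ≤ Real.log c + (x / c - 1) := by
  have h := Real.log_le_sub_one_of_pos (div_pos hx hc)
  rw [Real.log_div hx.ne' hc.ne'] at h
  linarith

/-- The Jensen step. -/
theorem half {n : ℕ} (M : Matrix (Fin n) (Fin n) ℝ) (hM : ∀ i j, 0 ≤ M i j)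
    (q r r' : Fin n → ℝ) (hq : ∀ i, 0 < q i) (hr : ∀ i, 0 < r i) (hr' : ∀ i, 0 < r' i)
    (hφ : ∀ i, 0 < M.mulVec r i) (hφ' : ∀ i, 0 < M.mulVec r' i)
    (hbal : ∀ i, q i * M.mulVec r i = M.transpose.mulVec q i * r i) :
    ∑ i, q i * M.mulVec r i * Real.log (r' i / r i) ≤
      ∑ i, q i * M.mulVec r i * Real.log (M.mulVec r' i / M.mulVec r i) := by
  have h1 : ∑ j, q j * M.mulVec r j * Real.log (r' j / r j) =
      ∑ i, ∑ j, q i * M i j * r j * Real.log (r' j / r j) := by
    rw [Finset.sum_comm]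
    refine Finset.sum_congr rfl fun j _ => ?_
    rw [hbal]
    unfold Matrix.mulVec dotProduct
    simp only [Matrix.transpose_apply]
    rw [Finset.sum_mul, Finset.sum_mul]
    exact Finset.sum_congr rfl fun i _ => by ring
  rw [h1]
  refine Finset.sum_le_sum fun i _ => ?_
  set c := M.mulVec r' i / M.mulVec r i with hc
  have hcpos : 0 < c := div_pos (hφ' i) (hφ i)
  calc ∑ j, q i * M i j * r j * Real.log (r' j / r j)
      ≤ ∑ j, q i * M i j * r j * (Real.log c + (r' j / r j / c - 1)) := by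
        refine Finset.sum_le_sum fun j _ => ?_
        refine mul_le_mul_of_nonneg_left (log_bound _ _ (div_pos (hr' j) (hr j)) hcpos) ?_
        exact mul_nonneg (mul_nonneg (hq i).le (hM i j)) (hr j).le
    _ = q i * (∑ j, M i j * r j) * (Real.log c - 1) + q i / c * ∑ j, M i j * r' j := by
        rw [Finset.mul_sum, Finset.mul_sum, Finset.sum_mul, ← Finset.sum_add_distrib]
        refine Finset.sum_congr rfl fun j _ => ?_
        have := (hr j).ne'
        field_simp
        ring
    _ = q i * M.mulVec r i * (Real.log c - 1) + q i / c * M.mulVec r' i := rfl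
    _ = q i * M.mulVec r i * Real.log c := by
        rw [hc]
        have h2 := (hφ i).ne'
        have h3 := (hφ' i).ne'
        field_simp
        ring

theorem sub_mul_log_nonneg (a b : ℝ) (ha : 0 < a) (hb : 0 < b) : 0 ≤ (b - a) * Real.log (b / a) := by
  rcases le_total a b with h | h
  · exact mul_nonneg (by linarith) (Real.log_nonneg ((one_le_div ha).2 h))
  · exact mul_nonneg_of_nonpos_of_nonpos (by linarith)
      (Real.log_nonpos (div_pos hb ha).le ((div_le_one ha).2 h))

theorem log_eq_zero_of (a b : ℝ) (ha : 0 < a) (h : (b - a) * Real.log (b / a) = 0) :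
    Real.log (b / a) = 0 := by
  rcases mul_eq_zero.1 h with h | h
  · have : b = a := by linarith
    rw [this, div_self ha.ne', Real.log_one]
  · exact h

/-- Strict monotonicity. -/
theorem strict {n : ℕ} (hn : 1 ≤ n) (M : Matrix (Fin n) (Fin n) ℝ) (hM : ∀ i j, 0 ≤ M i j)
    (s s' : ℝ) (hs : 0 < s) (hss : s < s') (q r q' r' : Fin n → ℝ) (H : Master M s q r)
    (H' : Master M s' q' r') (hq : ∀ i, 0 < q i) (hr : ∀ i, 0 < r i) (hq' : ∀ i, 0 < q' i)
    (hr' : ∀ i, 0 < r' i) (hφ : ∀ i, 0 < M.mulVec r i) (hφ' : ∀ i, 0 < M.mulVec r' i)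
    (hψ : ∀ i, 0 < M.transpose.mulVec q i) (hψ' : ∀ i, 0 < M.transpose.mulVec q' i) :
    ∑ i, q' i * M.mulVec r' i < ∑ i, q i * M.mulVec r i := by
  have hs' : 0 < s' := hs.trans hss
  have hbal : ∀ i, q i * M.mulVec r i = M.transpose.mulVec q i * r i := by
    intro i
    rw [H.eq i, H.eq' i]
    ring
  have hbal' : ∀ i, q' i * M.mulVec r' i = M.transpose.mulVec q' i * r' i := by
    intro i
    rw [H'.eq i, H'.eq' i]
    ring
  have hd : ∀ i, 0 < s ^ 2 + M.mulVec r i * M.transpose.mulVec q i := fun i => by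
    have := mul_pos (hφ i) (hψ i)
    positivity
  have hd' : ∀ i, 0 < s' ^ 2 + M.mulVec r' i * M.transpose.mulVec q' i := fun i => by
    have := mul_pos (hφ' i) (hψ' i)
    positivity
  set w : Fin n → ℝ := fun i => s ^ 2 / (s ^ 2 + M.mulVec r i * M.transpose.mulVec q i) with hw
  set w' : Fin n → ℝ := fun i => s' ^ 2 / (s' ^ 2 + M.mulVec r' i * M.transpose.mulVec q' i) with hw'
  have hwpos : ∀ i, 0 < w i := fun i => div_pos (by positivity) (hd i)
  have hwpos' : ∀ i, 0 < w' i := fun i => div_pos (by positivity) (hd' i)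
  have hp : ∀ i, q i * M.mulVec r i = 1 - w i := by
    intro i
    have h1 : q i * M.mulVec r i = M.transpose.mulVec q i /
      (s ^ 2 + M.mulVec r i * M.transpose.mulVec q i) * M.mulVec r i := by rw [← H.eq i]
    rw [h1, hw]
    have := (hd i).ne'
    simp only
    rw [div_mul_eq_mul_div, eq_sub_iff_add_eq, ← add_div, div_eq_one_iff_eq this]
    ring
  have hp' : ∀ i, q' i * M.mulVec r' i = 1 - w' i := by
    intro i
    have h1 : q' i * M.mulVec r' i = M.transpose.mulVec q' i /
      (s' ^ 2 + M.mulVec r' i * M.transpose.mulVec q' i) * M.mulVec r' i := by rw [← H'.eq i]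
    rw [h1, hw']
    have := (hd' i).ne'
    simp only
    rw [div_mul_eq_mul_div, eq_sub_iff_add_eq, ← add_div, div_eq_one_iff_eq this]
    ring
  set τ : ℝ := Real.log (s' ^ 2 / s ^ 2) with hτ
  have hτpos : 0 < τ := Real.log_pos ((one_lt_div (by positivity)).2 (by nlinarith))
  have hlog : ∀ i, Real.log (r' i / r i) =
      Real.log (M.mulVec r' i / M.mulVec r i) + Real.log (w' i / w i) - τ := by
    intro i
    have e1 : r i = M.mulVec r i * w i / s ^ 2 := by
      rw [hw]
      simp only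
      have h2 := H.eq' i
      have := (hd i).ne'
      have hs2 : s ^ 2 ≠ 0 := by positivity
      rw [eq_div_iff this] at h2
      field_simp
      linarith
    have e2 : r' i = M.mulVec r' i * w' i / s' ^ 2 := by
      rw [hw']
      simp only
      have h2 := H'.eq' i
      have := (hd' i).ne'
      have hs2 : s' ^ 2 ≠ 0 := by positivity
      rw [eq_div_iff this] at h2
      field_simp
      linarith
    have l1 : Real.log (r i) = Real.log (M.mulVec r i) + Real.log (w i) - Real.log (s ^ 2) := by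
      conv_lhs => rw [e1]
      rw [Real.log_div (mul_pos (hφ i) (hwpos i)).ne' (by positivity),
        Real.log_mul (hφ i).ne' (hwpos i).ne']
    have l2 : Real.log (r' i) = Real.log (M.mulVec r' i) + Real.log (w' i) -
        Real.log (s' ^ 2) := by
      conv_lhs => rw [e2]
      rw [Real.log_div (mul_pos (hφ' i) (hwpos' i)).ne' (by positivity),
        Real.log_mul (hφ' i).ne' (hwpos' i).ne']
    have hs2 : s ^ 2 ≠ 0 := by positivity
    have hs2' : s' ^ 2 ≠ 0 := by positivity
    rw [Real.log_div (hr' i).ne' (hr i).ne', l1, l2, hτ,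
      Real.log_div (hφ' i).ne' (hφ i).ne', Real.log_div (hwpos' i).ne' (hwpos i).ne',
      Real.log_div hs2' hs2]
    ring
  have A := half M hM q r r' hq hr hr' hφ hφ' hbal
  have B := half M hM q' r' r hq' hr' hr hφ' hφ hbal'
  have A' : ∑ i, (1 - w i) * (Real.log (w' i / w i) - τ) ≤ 0 := by
    have : ∑ i, (1 - w i) * (Real.log (w' i / w i) - τ) =
        ∑ i, q i * M.mulVec r i * Real.log (r' i / r i) -
        ∑ i, q i * M.mulVec r i * Real.log (M.mulVec r' i / M.mulVec r i) := by
      rw [← Finset.sum_sub_distrib]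
      refine Finset.sum_congr rfl fun i _ => ?_
      rw [hlog i, hp i]
      ring
    rw [this]; linarith
  have B' : ∑ i, (1 - w' i) * (-Real.log (w' i / w i) + τ) ≤ 0 := by
    have : ∑ i, (1 - w' i) * (-Real.log (w' i / w i) + τ) =
        ∑ i, q' i * M.mulVec r' i * Real.log (r i / r' i) -
        ∑ i, q' i * M.mulVec r' i * Real.log (M.mulVec r i / M.mulVec r' i) := by
      rw [← Finset.sum_sub_distrib]
      refine Finset.sum_congr rfl fun i _ => ?_
      have h1 : Real.log (r i / r' i) = -Real.log (r' i / r i) := by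
        rw [← Real.log_inv, inv_div]
      have h2 : Real.log (M.mulVec r i / M.mulVec r' i) =
          -Real.log (M.mulVec r' i / M.mulVec r i) := by
        rw [← Real.log_inv, inv_div]
      rw [h1, h2, hlog i, hp' i]
      ring
    rw [this]; linarith
  by_contra hcon
  push Not at hcon
  have hT : ∀ i ∈ (Finset.univ : Finset (Fin n)), 0 ≤ (w' i - w i) * Real.log (w' i / w i) :=
    fun i _ => sub_mul_log_nonneg _ _ (hwpos i) (hwpos' i)
  have hsum : ∑ i, (w' i - w i) * Real.log (w' i / w i) ≤ 0 := by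
    have e : ∑ i, (w' i - w i) * Real.log (w' i / w i) =
        ∑ i, (1 - w i) * (Real.log (w' i / w i) - τ) +
        ∑ i, (1 - w' i) * (-Real.log (w' i / w i) + τ) +
        τ * (∑ i, q i * M.mulVec r i - ∑ i, q' i * M.mulVec r' i) := by
      rw [← Finset.sum_sub_distrib, Finset.mul_sum, ← Finset.sum_add_distrib,
        ← Finset.sum_add_distrib]
      refine Finset.sum_congr rfl fun i _ => ?_
      rw [hp i, hp' i]
      ring
    rw [e]
    have : τ * (∑ i, q i * M.mulVec r i - ∑ i, q' i * M.mulVec r' i) ≤ 0 :=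
      mul_nonpos_of_nonneg_of_nonpos hτpos.le (by linarith)
    linarith
  have hzero := (Finset.sum_eq_zero_iff_of_nonneg hT).1
    (le_antisymm hsum (Finset.sum_nonneg hT))
  have hL : ∀ i, Real.log (w' i / w i) = 0 := fun i =>
    log_eq_zero_of _ _ (hwpos i) (hzero i (Finset.mem_univ i))
  have hfin : 0 < ∑ i, (1 - w' i) * (-Real.log (w' i / w i) + τ) := by
    refine Finset.sum_pos (fun i _ => ?_) ⟨⟨0, hn⟩, Finset.mem_univ _⟩
    rw [hL i, neg_zero, zero_add, ← hp' i]
    exact mul_pos (mul_pos (hq' i) (hφ' i)) hτpos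
  linarith

/-- Nonzero solutions are entrywise positive. -/
theorem pos_of_nonzero {n : ℕ} (σ : Matrix (Fin n) (Fin n) ℝ) (hσ : Irreducible σ) (s : ℝ)
    (hs : 0 < s) (q r : Fin n → ℝ) (H : Master (V σ) s q r) (hne : ¬ (q = 0 ∧ r = 0)) :
    (∀ i, 0 < q i) ∧ (∀ i, 0 < r i) ∧ (∀ i, 0 < (V σ).mulVec r i) ∧
      (∀ i, 0 < (V σ).transpose.mulVec q i) := by
  have hV : ∀ i j, 0 ≤ V σ i j := fun i j => by unfold V; simp only [Matrix.of_apply]; positivity
  have hVpos : ∀ i j, 0 < σ i j → 0 < V σ i j := fun i j h => by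
    have hn : 0 < n := lt_of_le_of_lt (Nat.zero_le _) i.2
    have : (0 : ℝ) < n := by exact_mod_cast hn
    unfold V; simp only [Matrix.of_apply]; positivity
  have hφ0 : ∀ i, 0 ≤ (V σ).mulVec r i := by
    intro i
    change 0 ≤ ∑ j, V σ i j * r j
    exact Finset.sum_nonneg fun j _ => mul_nonneg (hV i j) (H.nonneg' j)
  have hψ0 : ∀ i, 0 ≤ (V σ).transpose.mulVec q i := by
    intro i
    change 0 ≤ ∑ j, V σ j i * q j
    exact Finset.sum_nonneg fun j _ => mul_nonneg (hV j i) (H.nonneg j)
  have hd : ∀ i, 0 < s ^ 2 + (V σ).mulVec r i * (V σ).transpose.mulVec q i := fun i => by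
    have := mul_nonneg (hφ0 i) (hψ0 i)
    positivity
  have hψq : ∀ i, 0 < (V σ).transpose.mulVec q i ↔ 0 < q i := by
    intro i
    rw [H.eq i]
    constructor
    · intro h; exact div_pos h (hd i)
    · intro h
      rcases (hψ0 i).eq_or_lt with h0 | h0
      · rw [← h0, zero_div] at h
        exact absurd h (lt_irrefl _)
      · exact h0
  have hφr : ∀ i, 0 < (V σ).mulVec r i ↔ 0 < r i := by
    intro i
    rw [H.eq' i]
    constructor
    · intro h; exact div_pos h (hd i)
    · intro h
      rcases (hφ0 i).eq_or_lt with h0 | h0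
      · rw [← h0, zero_div] at h
        exact absurd h (lt_irrefl _)
      · exact h0
  have stepq : ∀ i j, 0 < σ i j → 0 < q i → 0 < q j := by
    intro i j hij hi
    rw [← hψq j]
    refine Finset.sum_pos' (fun k _ => mul_nonneg (hV k j) (H.nonneg k)) ⟨i, Finset.mem_univ _, ?_⟩
    exact mul_pos (hVpos i j hij) hi
  have stepr : ∀ i j, 0 < σ i j → 0 < r j → 0 < r i := by
    intro i j hij hj
    rw [← hφr i]
    refine Finset.sum_pos' (fun k _ => mul_nonneg (hV i k) (H.nonneg' k)) ⟨j, Finset.mem_univ _, ?_⟩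
    exact mul_pos (hVpos i j hij) hj
  have propq : ∀ i j, 0 < q i → 0 < q j := by
    intro i j hi
    have h := hσ.2 i j
    induction h with
    | refl => exact hi
    | tail _ hbc ih => exact stepq _ _ hbc ih
  have propr : ∀ i j, 0 < r j → 0 < r i := by
    intro i j hj
    have h := hσ.2 i j
    induction h using Relation.ReflTransGen.head_induction_on with
    | refl => exact hj
    | head hab _ ih => exact stepr _ _ hab ih
  have exq : ∃ i, 0 < q i := by
    by_contra hcon
    push Not at hcon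
    have hq0 : q = 0 := funext fun i => le_antisymm (hcon i) (H.nonneg i)
    have hsum := H.sum
    rw [hq0] at hsum
    simp only [Pi.zero_apply, Finset.sum_const_zero] at hsum
    have hr0 : r = 0 := by
      have := (Finset.sum_eq_zero_iff_of_nonneg (fun i _ => H.nonneg' i)).1 hsum.symm
      exact funext fun i => this i (Finset.mem_univ i)
    exact hne ⟨hq0, hr0⟩
  have exr : ∃ i, 0 < r i := by
    obtain ⟨i, hi⟩ := exq
    by_contra hcon
    push Not at hcon
    have hr0 : ∀ i, r i = 0 := fun i => le_antisymm (hcon i) (H.nonneg' i)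
    have hsum := H.sum
    simp only [hr0, Finset.sum_const_zero] at hsum
    have := (Finset.sum_eq_zero_iff_of_nonneg (fun i _ => H.nonneg i)).1 hsum i (Finset.mem_univ i)
    linarith
  obtain ⟨i0, hi0⟩ := exq
  obtain ⟨j0, hj0⟩ := exr
  have hq : ∀ i, 0 < q i := fun i => propq i0 i hi0
  have hr : ∀ i, 0 < r i := fun i => propr i j0 hj0
  exact ⟨hq, hr, fun i => (hφr i).2 (hr i), fun i => (hψq i).2 (hq i)⟩

theorem F_strict {n : ℕ} (hn : 1 ≤ n) (σ : Matrix (Fin n) (Fin n) ℝ) (hσ : Irreducible σ)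
    (q q' : ℝ → Fin n → ℝ) (H : Selected σ q q') (s s' : ℝ) (hs : 0 < s) (hss : s < s')
    (hle : s' ≤ √(rho (V σ))) : F σ q q' s < F σ q q' s' := by
  have hs' : 0 < s' := hs.trans hss
  have hV : ∀ i j, 0 ≤ V σ i j := fun i j => by unfold V; simp only [Matrix.of_apply]; positivity
  have hn0 : (0 : ℝ) < n := by exact_mod_cast hn
  obtain ⟨a1, a2, a3, a4⟩ := pos_of_nonzero σ hσ s hs _ _ (H.master s hs)
    (H.nonzero s hs (hss.trans_le hle))
  have hkey : dotProduct (q s') ((V σ).mulVec (q' s')) < dotProduct (q s) ((V σ).mulVec (q' s)) := by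
    rcases hle.eq_or_lt with h | h
    · obtain ⟨z1, z2⟩ := H.zero s' hs' h.ge
      rw [z1, zero_dotProduct]
      exact Finset.sum_pos (fun i _ => mul_pos (a1 i) (a3 i)) ⟨⟨0, hn⟩, Finset.mem_univ _⟩
    · obtain ⟨b1, b2, b3, b4⟩ := pos_of_nonzero σ hσ s' hs' _ _ (H.master s' hs')
        (H.nonzero s' hs' h)
      exact strict hn (V σ) hV s s' hs hss _ _ _ _ (H.master s hs) (H.master s' hs')
        a1 a2 b1 b2 a3 b3 a4 b4
  unfold F
  have : 1 / (n : ℝ) * dotProduct (q s') ((V σ).mulVec (q' s')) <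
      1 / (n : ℝ) * dotProduct (q s) ((V σ).mulVec (q' s)) :=
    mul_lt_mul_of_pos_left hkey (by positivity)
  linarith

theorem F_one {n : ℕ} (σ : Matrix (Fin n) (Fin n) ℝ)
    (q q' : ℝ → Fin n → ℝ) (H : Selected σ q q') (s : ℝ) (hs : 0 < s)
    (hle : √(rho (V σ)) ≤ s) : F σ q q' s = 1 := by
  unfold F
  rw [(H.zero s hs hle).1, zero_dotProduct]
  ring

/-- Null annuli: if a ball around `z` is null then the whole annulus is null. -/
theorem annulus_null (μ : Measure ℂ) (hr : ∀ θ : ℝ, μ.map (fun z => Complex.exp (θ * Complex.I) * z) = μ)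
    (z : ℂ) (ε : ℝ) (h0 : μ (Metric.ball z ε) = 0) :
    μ {w : ℂ | |‖w‖ - ‖z‖| < ε} = 0 := by
  have hball : ∀ θ : ℝ, μ (Metric.ball (Complex.exp (θ * Complex.I) * z) ε) = 0 := by
    intro θ
    have hm : Measurable (fun z : ℂ => Complex.exp (θ * Complex.I) * z) := by fun_prop
    rw [← hr θ, Measure.map_apply hm Metric.isOpen_ball.measurableSet]
    have : (fun z : ℂ => Complex.exp (θ * Complex.I) * z) ⁻¹'
        Metric.ball (Complex.exp (θ * Complex.I) * z) ε = Metric.ball z ε := by
      ext w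
      simp only [Set.mem_preimage, Metric.mem_ball, Complex.dist_eq]
      rw [← mul_sub, norm_mul, Complex.norm_exp_ofReal_mul_I, one_mul]
    rw [this, h0]
  refine measure_null_of_locally_null _ fun w hw => ?_
  refine ⟨Metric.ball (Complex.exp ((w.arg - z.arg : ℝ) * Complex.I) * z) ε, ?_, hball _⟩
  refine mem_nhdsWithin_of_mem_nhds (Metric.isOpen_ball.mem_nhds ?_)
  rw [Metric.mem_ball, Complex.dist_eq]
  have hz : z = (‖z‖ : ℂ) * Complex.exp (z.arg * Complex.I) := (Complex.norm_mul_exp_arg_mul_I z).symm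
  have hw' : w = (‖w‖ : ℂ) * Complex.exp (w.arg * Complex.I) := (Complex.norm_mul_exp_arg_mul_I w).symm
  have e : w - Complex.exp ((w.arg - z.arg : ℝ) * Complex.I) * z =
      ((‖w‖ - ‖z‖ : ℝ) : ℂ) * Complex.exp (w.arg * Complex.I) := by
    have h3 : Complex.exp ((w.arg - z.arg : ℝ) * Complex.I) * Complex.exp (z.arg * Complex.I) =
        Complex.exp (w.arg * Complex.I) := by
      rw [← Complex.exp_add]
      congr 1
      push_cast
      ring
    have A : Complex.exp ((w.arg - z.arg : ℝ) * Complex.I) * z =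
        (‖z‖ : ℂ) * Complex.exp (w.arg * Complex.I) := by
      rw [← h3]
      linear_combination (Complex.exp ((w.arg - z.arg : ℝ) * Complex.I)) * hz
    rw [A]
    push_cast
    linear_combination hw'
  rw [e, norm_mul, Complex.norm_exp_ofReal_mul_I, mul_one, Complex.norm_real]
  exact hw

/-- The support of `μ_A` is the closed disc of radius `√ρ(V)` around `0`, for every `n ≥ 1` and
every irreducible nonnegative `A` for which `μ_A` is defined; in particular it is connected. -/
theorem result : ∀ (n : ℕ), 1 ≤ n → ∀ σ : Matrix (Fin n) (Fin n) ℝ, Irreducible σ →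
    ∀ μ : Measure ℂ, IsDetEquiv σ μ →
      μ.support = Metric.closedBall 0 (√(rho (V σ))) ∧ IsConnected μ.support := by
  intro n hn σ hσ μ hμ
  have hprob := hμ.prob
  obtain ⟨q, q', H, hF⟩ := hμ.law
  set R := √(rho (V σ)) with hR
  have hR0 : 0 ≤ R := Real.sqrt_nonneg _
  have hmain : μ.support = Metric.closedBall 0 R := by
    refine Set.Subset.antisymm ?_ ?_
    · intro z hz
      rw [mem_closedBall_zero_iff]
      by_contra hcon
      push Not at hcon
      set s := (R + ‖z‖) / 2 with hs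
      have hs1 : R < s := by rw [hs]; linarith
      have hs2 : s < ‖z‖ := by rw [hs]; linarith
      have hs0 : 0 < s := lt_of_le_of_lt hR0 hs1
      have h1 := hF s hs0
      rw [F_one σ q q' H s hs0 hs1.le] at h1
      have h2 : μ {z : ℂ | ‖z‖ ≤ s} = 1 := by
        rw [← ENNReal.ofReal_toReal (measure_ne_top μ {z : ℂ | ‖z‖ ≤ s}), h1, ENNReal.ofReal_one]
      have hm : MeasurableSet {z : ℂ | ‖z‖ ≤ s} :=
        (isClosed_le continuous_norm continuous_const).measurableSet
      have h3 : μ {z : ℂ | ‖z‖ ≤ s}ᶜ = 0 := by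
        rw [prob_compl_eq_zero_iff hm, h2]
      have h4 := (Measure.mem_support_iff_forall z).1 hz {z : ℂ | ‖z‖ ≤ s}ᶜ
        ((isClosed_le continuous_norm continuous_const).isOpen_compl.mem_nhds (by
          simpa using hs2))
      rw [h3] at h4
      exact lt_irrefl _ h4
    · have hin : ∀ z : ℂ, z ≠ 0 → ‖z‖ < R → z ∈ μ.support := by
        intro z hz0 hzR
        rw [Measure.mem_support_iff_forall]
        intro U hU
        obtain ⟨ε, hε, hball⟩ := Metric.mem_nhds_iff.1 hU
        refine lt_of_lt_of_le ?_ (measure_mono hball)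
        rw [pos_iff_ne_zero]
        intro h0
        have hann := annulus_null μ hμ.radial z ε h0
        have hz : 0 < ‖z‖ := norm_pos_iff.2 hz0
        set δ := min (ε / 2) (min (‖z‖ / 2) ((R - ‖z‖) / 2)) with hδ
        have hδ0 : 0 < δ := by
          rw [hδ]
          refine lt_min (by linarith) (lt_min (by linarith) (by linarith))
        have d1 : δ ≤ ε / 2 := min_le_left _ _
        have d2 : δ ≤ ‖z‖ / 2 := (min_le_right _ _).trans (min_le_left _ _)
        have d3 : δ ≤ (R - ‖z‖) / 2 := (min_le_right _ _).trans (min_le_right _ _)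
        have hs1 : 0 < ‖z‖ - δ := by linarith
        have hlt := F_strict hn σ hσ q q' H (‖z‖ - δ) (‖z‖ + δ) hs1 (by linarith) (by linarith)
        rw [← hF _ hs1, ← hF _ (by linarith)] at hlt
        have hle : μ {w : ℂ | ‖w‖ ≤ ‖z‖ + δ} ≤ μ {w : ℂ | ‖w‖ ≤ ‖z‖ - δ} := by
          calc μ {w : ℂ | ‖w‖ ≤ ‖z‖ + δ}
              ≤ μ ({w : ℂ | ‖w‖ ≤ ‖z‖ - δ} ∪ {w : ℂ | |‖w‖ - ‖z‖| < ε}) := by
                refine measure_mono fun w hw => ?_
                simp only [Set.mem_ofPred_eq] at hw
                by_cases h : ‖w‖ ≤ ‖z‖ - δ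
                · exact Or.inl h
                · right
                  push Not at h
                  simp only [Set.mem_ofPred_eq]
                  rw [abs_lt]
                  constructor <;> linarith
            _ ≤ μ {w : ℂ | ‖w‖ ≤ ‖z‖ - δ} + μ {w : ℂ | |‖w‖ - ‖z‖| < ε} := measure_union_le _ _
            _ = μ {w : ℂ | ‖w‖ ≤ ‖z‖ - δ} := by rw [hann, add_zero]
        have := ENNReal.toReal_mono (measure_ne_top _ _) hle
        linarith
      rcases hR0.eq_or_lt with h | h
      · rw [← h]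
        intro z hz
        rw [mem_closedBall_zero_iff] at hz
        have hz0 : z = 0 := norm_eq_zero.1 (le_antisymm hz (norm_nonneg z))
        rw [hz0, Measure.mem_support_iff_forall]
        intro U hU
        obtain ⟨ε, hε, hball⟩ := Metric.mem_nhds_iff.1 hU
        have hsub : {z : ℂ | ‖z‖ ≤ ε / 2} ⊆ U := by
          intro w hw
          refine hball ?_
          rw [mem_ball_zero_iff]
          have : ‖w‖ ≤ ε / 2 := hw
          linarith
        refine lt_of_lt_of_le ?_ (measure_mono hsub)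
        have h1 := hF (ε / 2) (by linarith)
        rw [F_one σ q q' H (ε / 2) (by linarith) (by rw [← hR, ← h]; linarith)] at h1
        rw [pos_iff_ne_zero]
        intro h0
        rw [h0] at h1
        simp at h1
      · have hcl : IsClosed μ.support := Measure.isClosed_support
        have hsub : Metric.closedBall (0 : ℂ) R ⊆ closure (Metric.ball 0 R \ {0}) := by
          rw [← closure_ball (0 : ℂ) h.ne']
          refine closure_minimal ?_ isClosed_closure
          exact (dense_compl_singleton (0 : ℂ)).open_subset_closure_inter Metric.isOpen_ball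
        refine hsub.trans (closure_minimal ?_ hcl)
        rintro z ⟨hz, hz0⟩
        exact hin z hz0 (mem_ball_zero_iff.1 hz)
  refine ⟨hmain, ?_⟩
  rw [hmain]
  exact ⟨⟨0, by simp [hR0]⟩, (convex_closedBall 0 R).isPreconnected⟩

end Pool.Agent.Results.MP_44eb1e_pr.SupportIsDisc
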